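import Mathlib

/-!
# MP_903317_co: the smallest non-bipartite regular graphs with diameter 2 and girth 4 are not unique

For `k = 11 q` with least prime divisor 11 the asserted minimum is `3 k - k / 11 = 32 q`. The
12-vertex graph `core` (a triangle-free 4-chromatic graph of diameter 2, one of the Vega graphs of
Brandt and Pisanski) has vertex weights with sum 32 such that the weight of each neighbourhood
is 11. Replacing each vertex by an independent set of size `q` times its weight gives an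
`11 q`-regular graph of diameter 2 and girth 4 with `32 q` vertices which is not 3-colourable,
while the circulant graph `G_k(11, q)` is.
-/

set_option autoImplicit false

namespace Pool.Agent.Results.MP_903317_co.VegaGraph

open SimpleGraph

/-- The class `F(k,d)`: `k`-regular, not bipartite, diameter exactly `d`, girth exactly `2 d`. -/
def InF {V : Type} (k d : ℕ) (G : SimpleGraph V) : Prop :=
  (∀ v, (G.neighborSet v).ncard = k) ∧ ¬ G.Colorable 2 ∧ G.ediam = (d : ℕ∞) ∧
    G.egirth = ((2 * d : ℕ) : ℕ∞)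

/-- The graph `G_k(p,q)` with `k = p q`, on the `(3 p - 1) q` residues: `i` and `j` are adjacent if
`i - j ≡ 1 + 3 n` modulo `3 p - 1` for some `n` in `0, ..., p - 1` (a symmetric relation). -/
def circ (p q : ℕ) : SimpleGraph (Fin ((3 * p - 1) * q)) :=
  SimpleGraph.fromRel fun i j =>
    ∃ n < p, ((i : ℕ) : ℤ) - ((j : ℕ) : ℤ) ≡ 1 + 3 * (n : ℤ) [ZMOD ((3 * p - 1 : ℕ) : ℤ)]

/-- The assertion of the question for `k`, with `p = k.minFac` the least prime divisor of `k`: the
least order of a graph in `F(k,2)` is `3 k - k / p`, and every graph in `F(k,2)` of this order is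
isomorphic to `G_k(p, k / p)`. -/
def Assertion (k : ℕ) : Prop :=
  IsLeast {n : ℕ | ∃ G : SimpleGraph (Fin n), InF k 2 G} (3 * k - k / k.minFac) ∧
    ∀ (V : Type) [Fintype V] (G : SimpleGraph V), InF k 2 G →
      Fintype.card V = 3 * k - k / k.minFac → Nonempty (G ≃g circ k.minFac (k / k.minFac))

/-- adjacency of the 12-vertex graph, as bit masks -/
def nb : Fin 12 → ℕ :=
  ![0b001001001100, 0b001001011000, 0b010010010001, 0b010010000011, 0b100100000110,
    0b000111000000, 0b110000100011, 0b101000101100, 0b011000110000, 0b000110000011,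
    0b000101001100, 0b000011010000]

/-- the 12-vertex graph -/
def core : SimpleGraph (Fin 12) where
  Adj i j := (nb i).testBit j = true
  symm := ⟨by decide⟩
  loopless := ⟨fun i => by revert i; decide⟩

instance : DecidableRel core.Adj := fun i j => inferInstanceAs (Decidable ((nb i).testBit j = true))

/-- the class of each of the 32 vertices -/
def cls : Fin 32 → Fin 12 :=
  ![0, 1, 1, 1, 2, 2, 2, 3, 4, 4, 4, 5, 5, 6, 6, 6, 6, 7, 7, 7, 7, 8, 8, 8, 9, 9, 9, 10, 10, 10,
    11, 11]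

/-- the blow-up -/
def blow (q : ℕ) : SimpleGraph (Fin 32 × Fin q) := core.comap fun x => cls x.1

theorem blow_adj (q : ℕ) (x y : Fin 32 × Fin q) :
    (blow q).Adj x y ↔ core.Adj (cls x.1) (cls y.1) := Iff.rfl

theorem core_triangle_free : ∀ a b c : Fin 12, core.Adj a b → core.Adj b c → ¬ core.Adj c a := by
  decide

theorem core_common : ∀ a b : Fin 12, ∃ i : Fin 32, core.Adj a (cls i) ∧ core.Adj (cls i) b ∨
    core.Adj a b := by
  decide

theorem core_weight : ∀ a : Fin 12, (Finset.univ.filter fun i : Fin 32 => core.Adj a (cls i)).card = 11 := by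
  decide

set_option synthInstance.maxSize 2000 in
theorem core_colouring : ∀ c5 : Fin 3, ∀ c6 : Fin 3, c6 ≠ c5 → ∀ c7 : Fin 3, c7 ≠ c5 →
    ∀ c8 : Fin 3, c8 ≠ c5 → ∀ c11 : Fin 3, c11 ≠ c6 → c11 ≠ c7 → ∀ c9 : Fin 3, c9 ≠ c7 → c9 ≠ c8 →
    ∀ c10 : Fin 3, c10 ≠ c6 → c10 ≠ c8 → ∀ c4 : Fin 3, c4 ≠ c8 → c4 ≠ c11 →
    ∀ c0 : Fin 3, c0 ≠ c6 → c0 ≠ c9 → ∀ c1 : Fin 3, c1 ≠ c6 → c1 ≠ c9 → c1 ≠ c4 →
    ∀ c2 : Fin 3, c2 ≠ c7 → c2 ≠ c10 → c2 ≠ c0 → c2 ≠ c4 →
    ∀ c3 : Fin 3, c3 ≠ c7 → c3 ≠ c10 → c3 ≠ c0 → c3 = c1 := by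
  decide

theorem core_not_three : ¬ core.Colorable 3 := by
  rintro ⟨C⟩
  have h : ∀ a b : Fin 12, core.Adj a b → C a ≠ C b := fun a b hab => C.valid hab
  exact h 3 1 (by decide) (core_colouring (C 5) (C 6) (h _ _ (by decide)) (C 7) (h _ _ (by decide))
    (C 8) (h _ _ (by decide)) (C 11) (h _ _ (by decide)) (h _ _ (by decide)) (C 9)
    (h _ _ (by decide)) (h _ _ (by decide)) (C 10) (h _ _ (by decide)) (h _ _ (by decide)) (C 4)
    (h _ _ (by decide)) (h _ _ (by decide)) (C 0) (h _ _ (by decide)) (h _ _ (by decide)) (C 1)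
    (h _ _ (by decide)) (h _ _ (by decide)) (h _ _ (by decide)) (C 2) (h _ _ (by decide))
    (h _ _ (by decide)) (h _ _ (by decide)) (h _ _ (by decide)) (C 3) (h _ _ (by decide))
    (h _ _ (by decide)) (h _ _ (by decide)))

/-- a vertex of each class -/
def rep : Fin 12 → Fin 32 := ![0, 1, 4, 7, 8, 11, 13, 17, 21, 24, 27, 30]

theorem cls_rep : ∀ a : Fin 12, cls (rep a) = a := by decide

theorem blow_not_three (q : ℕ) (hq : 0 < q) : ¬ (blow q).Colorable 3 := by
  rintro ⟨C⟩
  refine core_not_three ⟨Coloring.mk (fun a => C (rep a, ⟨0, hq⟩)) ?_⟩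
  intro a b hab
  exact C.valid (show core.Adj (cls (rep a)) (cls (rep b)) by rwa [cls_rep, cls_rep])

theorem blow_regular (q : ℕ) (v : Fin 32 × Fin q) : ((blow q).neighborSet v).ncard = 11 * q := by
  have h : (blow q).neighborSet v =
      (((Finset.univ.filter fun i : Fin 32 => core.Adj (cls v.1) (cls i)) ×ˢ
        (Finset.univ : Finset (Fin q)) : Finset (Fin 32 × Fin q)) : Set (Fin 32 × Fin q)) := by
    ext x
    simp [blow_adj]
  rw [h, Set.ncard_coe_finset, Finset.card_product, core_weight, Finset.card_univ, Fintype.card_fin]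

theorem blow_ediam (q : ℕ) (hq : 0 < q) : (blow q).ediam = ((2 : ℕ) : ℕ∞) := by
  apply le_antisymm
  · refine ediam_le_of_edist_le fun u v => ?_
    obtain ⟨i, h | h⟩ := core_common (cls u.1) (cls v.1)
    · have h1 : (blow q).Adj u (i, ⟨0, hq⟩) := h.1
      have h2 : (blow q).Adj (i, ⟨0, hq⟩) v := h.2
      have := (Walk.cons h1 (Walk.cons h2 Walk.nil)).edist_le
      simpa using this
    · have h1 : (blow q).Adj u v := h
      have := (Walk.cons h1 Walk.nil).edist_le
      refine this.trans ?_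
      norm_num
  · by_contra hlt
    rw [not_le] at hlt
    have hle : (blow q).ediam ≤ 1 := by
      have : (blow q).ediam < 1 + 1 := by
        refine lt_of_lt_of_le hlt ?_
        norm_num
      exact Order.le_of_lt_add_one this
    have h1 : (blow q).edist ((0 : Fin 32), (⟨0, hq⟩ : Fin q)) ((1 : Fin 32), (⟨0, hq⟩ : Fin q)) ≤ 1 :=
      edist_le_ediam.trans hle
    have hne : ((0 : Fin 32), (⟨0, hq⟩ : Fin q)) ≠ ((1 : Fin 32), (⟨0, hq⟩ : Fin q)) := by
      intro h
      have h01 : (0 : Fin 32) = 1 := congrArg Prod.fst h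
      exact absurd h01 (by decide)
    have h2 : (blow q).Adj ((0 : Fin 32), (⟨0, hq⟩ : Fin q)) ((1 : Fin 32), (⟨0, hq⟩ : Fin q)) := by
      rw [← edist_eq_one_iff_adj]
      refine le_antisymm h1 ?_
      rw [Order.one_le_iff_pos]
      exact pos_iff_ne_zero.2 fun h0 => hne (edist_eq_zero_iff.1 h0)
    exact absurd (show core.Adj (cls 0) (cls 1) from h2) (by decide)

theorem blow_egirth (q : ℕ) (hq : 0 < q) : (blow q).egirth = ((2 * 2 : ℕ) : ℕ∞) := by
  apply le_antisymm
  · have h1 : (blow q).Adj ((1 : Fin 32), (⟨0, hq⟩ : Fin q)) ((8 : Fin 32), (⟨0, hq⟩ : Fin q)) :=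
      show core.Adj (cls 1) (cls 8) by decide
    have h2 : (blow q).Adj ((8 : Fin 32), (⟨0, hq⟩ : Fin q)) ((2 : Fin 32), (⟨0, hq⟩ : Fin q)) :=
      show core.Adj (cls 8) (cls 2) by decide
    have h3 : (blow q).Adj ((2 : Fin 32), (⟨0, hq⟩ : Fin q)) ((9 : Fin 32), (⟨0, hq⟩ : Fin q)) :=
      show core.Adj (cls 2) (cls 9) by decide
    have h4 : (blow q).Adj ((9 : Fin 32), (⟨0, hq⟩ : Fin q)) ((1 : Fin 32), (⟨0, hq⟩ : Fin q)) :=
      show core.Adj (cls 9) (cls 1) by decide
    let w : (blow q).Walk ((1 : Fin 32), (⟨0, hq⟩ : Fin q)) ((1 : Fin 32), (⟨0, hq⟩ : Fin q)) :=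
      Walk.cons h1 (Walk.cons h2 (Walk.cons h3 (Walk.cons h4 Walk.nil)))
    have hw : w.IsCycle := by
      rw [Walk.isCycle_def]
      refine ⟨?_, by simp [w], ?_⟩
      · rw [Walk.isTrail_def]
        simp [w, Prod.ext_iff]
      · simp [w, Prod.ext_iff]
    have := egirth_le_length hw
    simpa [w] using this
  · rw [le_egirth]
    intro a w hw
    have h3 := hw.three_le_length
    have : w.length ≠ 3 := by
      intro hlen
      match w, hlen with
      | Walk.cons h1 (Walk.cons h2 (Walk.cons h3 Walk.nil)), _ =>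
        exact core_triangle_free _ _ _ h1 h2 h3
    have h4 : 4 ≤ w.length := by omega
    exact_mod_cast h4

theorem blow_InF (q : ℕ) (hq : 0 < q) : InF (11 * q) 2 (blow q) :=
  ⟨blow_regular q, fun h => blow_not_three q hq (h.mono (by norm_num)), blow_ediam q hq,
    blow_egirth q hq⟩

/-- a 3-colouring of the circulant graph on 32 residues -/
def colr (r : Fin 32) : Fin 3 := ⟨(11 * (r : ℕ)) % 32 / 11, by have := r.2; omega⟩

theorem colr_ne : ∀ r s : Fin 32, ∀ n : Fin 11,
    ((r : ℕ) + 32 - (s : ℕ)) % 32 = 1 + 3 * (n : ℕ) → colr r ≠ colr s := by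
  decide

theorem circ_three (q : ℕ) : (circ 11 q).Colorable 3 := by
  have key : ∀ i j : Fin ((3 * 11 - 1) * q), (∃ n : ℕ, n < 11 ∧ ((i : ℕ) : ℤ) - ((j : ℕ) : ℤ) ≡
      1 + 3 * (n : ℤ) [ZMOD ((3 * 11 - 1 : ℕ) : ℤ)]) →
      colr ⟨(i : ℕ) % 32, Nat.mod_lt _ (by norm_num)⟩ ≠
        colr ⟨(j : ℕ) % 32, Nat.mod_lt _ (by norm_num)⟩ := by
    rintro i j ⟨n, hn, h⟩
    refine colr_ne _ _ ⟨n, hn⟩ ?_
    simp only
    have h' : (((i : ℕ) : ℤ) - ((j : ℕ) : ℤ)) % 32 = (1 + 3 * (n : ℤ)) % 32 := h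
    omega
  refine ⟨Coloring.mk (fun i => colr ⟨(i : ℕ) % 32, Nat.mod_lt _ (by norm_num)⟩) ?_⟩
  intro i j hij
  rw [circ, SimpleGraph.fromRel_adj] at hij
  rcases hij.2 with h | h
  · exact key i j h
  · exact (key j i h).symm

theorem not_iso (q : ℕ) (hq : 0 < q) : ¬ Nonempty (blow q ≃g circ 11 q) := by
  rintro ⟨f⟩
  obtain ⟨C⟩ := circ_three q
  exact blow_not_three q hq ⟨C.comp f.toHom⟩

/-- For every `k` with least prime divisor 11 there is a graph in `F(k,2)` with `3 k - k / 11`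
vertices which is not isomorphic to `G_k(11, k / 11)` (it is not 3-colourable, while
`G_k(11, k / 11)` is); so the assertion of the question is false for all these `k`, in particular
for `k = 11`, and the conjecture is false. -/
theorem result :
    (∀ k : ℕ, k.minFac = 11 → ∃ (V : Type) (_ : Fintype V) (G : SimpleGraph V),
      InF k 2 G ∧ Fintype.card V = 3 * k - k / 11 ∧ ¬ G.Colorable 3 ∧
        (circ 11 (k / 11)).Colorable 3 ∧ ¬ Nonempty (G ≃g circ 11 (k / 11))) ∧
    (∀ k : ℕ, k.minFac = 11 → ¬ Assertion k) ∧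
    ¬ ∀ k : ℕ, 2 ≤ k → 5 ≤ k.minFac → Assertion k := by
  have main : ∀ k : ℕ, k.minFac = 11 → ∃ (V : Type) (_ : Fintype V) (G : SimpleGraph V),
      InF k 2 G ∧ Fintype.card V = 3 * k - k / 11 ∧ ¬ G.Colorable 3 ∧
        (circ 11 (k / 11)).Colorable 3 ∧ ¬ Nonempty (G ≃g circ 11 (k / 11)) := by
    intro k hk
    obtain ⟨q, hq⟩ : 11 ∣ k := hk ▸ Nat.minFac_dvd k
    have hq0 : 0 < q := by
      rcases Nat.eq_zero_or_pos q with h | h
      · subst h
        subst hq
        simp at hk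
      · exact h
    have hdiv : k / 11 = q := by
      rw [hq]
      exact Nat.mul_div_cancel_left q (by norm_num)
    rw [hdiv]
    refine ⟨Fin 32 × Fin q, inferInstance, blow q, ?_, ?_, blow_not_three q hq0, circ_three q,
      not_iso q hq0⟩
    · rw [hq]
      exact blow_InF q hq0
    · rw [Fintype.card_prod, Fintype.card_fin, Fintype.card_fin]
      omega
  have neg : ∀ k : ℕ, k.minFac = 11 → ¬ Assertion k := by
    intro k hk hA
    obtain ⟨V, i, G, hG, hcard, -, -, hiso⟩ := main k hk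
    have h2 := hA.2
    have h3 := @h2 V i G hG (by rw [hk]; exact hcard)
    rw [hk] at h3
    exact hiso h3
  refine ⟨main, neg, fun h => ?_⟩
  have h11 : (11 : ℕ).minFac = 11 := by norm_num
  exact neg 11 h11 (h 11 (by norm_num) (by rw [h11]; norm_num))

end Pool.Agent.Results.MP_903317_co.VegaGraph
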